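import Pool.Agent.H562R2.CayleyIso

/-!
# The isoperimetric problem in Cayley graphs over `F_q^n` is solved by linear subspaces

For a Cayley graph of a finite vector space over a field with `q` elements, with a connection set
closed under nonzero scalars (for `q = 2` these are all Cayley graphs of `F_2^n`), the minimum over
all nonempty sets `A` of `Φ(A) - λ log_q(|V| / |A|)` is attained by a linear subspace, for every
`λ ≥ 0`; so is the minimum of `Φ(A) / log_q(|V| / |A|)` over all nonempty proper subsets `A`.
Hence small sets of small expansion yield subspaces of proportionally small expansion.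

The inequality is `main` of the starting file `Pool/Agent/H562R2/CayleyIso.lean` (helper562), which
had not been handed in.
-/

set_option autoImplicit false
set_option linter.unusedSectionVars false

namespace Pool.Agent.Results.MP_8d8c46_lc.SubspacesOptimal

open Finset Module
open scoped Classical

noncomputable section

/-- The Cayley graph of `V` with connection set `S`. -/
def cay {V : Type} [AddCommGroup V] (S : Finset V) (hS : ∀ s ∈ S, -s ∈ S) (h0 : (0 : V) ∉ S) :
    SimpleGraph V where
  Adj x y := y - x ∈ S
  symm := ⟨fun x y h => by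
    have := hS _ h
    rwa [neg_sub] at this⟩
  loopless := ⟨fun x h => h0 (by simpa using h)⟩

/-- The number of edges of `G` with exactly one endpoint in `A`, counted as ordered pairs
`(x,y)` with `x ∈ A`, `y ∉ A`. -/
def cut {V : Type} [Fintype V] (G : SimpleGraph V) (A : Finset V) : ℕ :=
  (univ.filter fun p : V × V => p.1 ∈ A ∧ p.2 ∉ A ∧ G.Adj p.1 p.2).card

/-- The expansion `|E(A, V∖A)|/(d|A|)` in a `d`-regular graph. -/
def expansion {V : Type} [Fintype V] (G : SimpleGraph V) (d : ℕ) (A : Finset V) : ℝ :=
  (cut G A : ℝ) / (d * A.card)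

/-- The vertex set of a linear subspace. -/
def carrier {F V : Type} [Field F] [AddCommGroup V] [Module F V] [Fintype V]
    (W : Submodule F V) : Finset V := univ.filter fun x => x ∈ W

/-- The codimension of a linear subspace. -/
def codim {F V : Type} [Field F] [AddCommGroup V] [Module F V] (W : Submodule F V) : ℕ :=
  finrank F V - finrank F W

/-- Yes instances of `SSE(η,δ)` for the `d`-regular graph `G`. -/
def SseYes {V : Type} [Fintype V] (G : SimpleGraph V) (d : ℕ) (eta del : ℝ) : Prop :=
  ∃ A : Finset V, A.Nonempty ∧ (A.card : ℝ) = del * Fintype.card V ∧ expansion G d A ≤ eta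

lemma cut_cay {V : Type} [AddCommGroup V] [Fintype V] (S : Finset V) (hS : ∀ s ∈ S, -s ∈ S)
    (h0 : (0 : V) ∉ S) (A : Finset V) :
    (cut (cay S hS h0) A : ℝ)
      = ∑ s, (if s ∈ S then (1 : ℝ) else 0) * H562R2.CayleyIso.outCount A s := by
  unfold cut
  have h1 : ∀ s, (if s ∈ S then (1 : ℝ) else 0) * (H562R2.CayleyIso.outCount A s : ℝ)
      = ∑ x, if x ∈ A ∧ x + s ∉ A ∧ s ∈ S then (1 : ℝ) else 0 := by
    intro s
    unfold H562R2.CayleyIso.outCount
    rw [Finset.card_filter]
    push_cast
    rw [Finset.mul_sum]
    rw [← Finset.sum_subset (Finset.subset_univ A)]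
    · refine Finset.sum_congr rfl fun x hx => ?_
      by_cases h1 : s ∈ S <;> by_cases h2 : x + s ∈ A <;> simp [h1, h2, hx]
    · intro x _ hx
      simp [hx]
  simp_rw [h1]
  rw [Finset.sum_comm, Finset.card_filter]
  push_cast
  rw [← Finset.univ_product_univ, Finset.sum_product]
  refine Finset.sum_congr rfl fun x _ => ?_
  symm
  refine Fintype.sum_equiv (Equiv.addLeft x) _ _ fun s => ?_
  simp only [Equiv.coe_addLeft, cay, add_sub_cancel_left]

lemma out_subspace {F V : Type} [Field F] [Fintype F] [AddCommGroup V] [Module F V] [Fintype V]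
    (W : Submodule F V) (s : V) :
    H562R2.CayleyIso.outCount (carrier W) s = if s ∈ W then 0 else (carrier W).card := by
  unfold H562R2.CayleyIso.outCount
  split_ifs with h
  · rw [Finset.card_eq_zero, Finset.filter_eq_empty_iff]
    intro x hx
    simp only [carrier, Finset.mem_filter, Finset.mem_univ, true_and, not_not] at hx ⊢
    exact W.add_mem hx h
  · congr 1
    rw [Finset.filter_eq_self]
    intro x hx
    simp only [carrier, Finset.mem_filter, Finset.mem_univ, true_and] at hx ⊢
    intro hc
    apply h
    have := W.sub_mem hc hx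
    simpa using this

lemma carrier_nonempty {F V : Type} [Field F] [AddCommGroup V] [Module F V] [Fintype V]
    (W : Submodule F V) : (carrier W).Nonempty := ⟨0, by simp [carrier]⟩

/-- **Result.** Let `F` be a finite field with `q` elements, `V` a finite `F`-vector space and
`G = Cay(V,S)` with `S` nonempty, `0 ∉ S` and `S` closed under nonzero scalars (`q = 2`: any Cayley
graph of `F_2^n`); `Φ` is the expansion in `G`.
1. For every `λ ≥ 0` there is a linear subspace `W` such that
`Φ(W) - λ codim W ≤ Φ(A) - λ log_q(|V|/|A|)` for all nonempty `A ⊆ V`.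
2. There is a linear subspace `W ≠ V` such that `Φ(W) / codim W ≤ Φ(A) / log_q(|V|/|A|)` for all
nonempty `A ≠ V` (with the denominators multiplied out).
3. If `G` is a yes instance of `SSE(η,δ)`, `0 < δ < 1`, then some linear subspace `W ≠ V` has
expansion `Φ(W) ≤ η codim W / log_q(1/δ)`.
4. All these are sharp, as `log_q(|V|/|W|) = codim W` for every subspace `W`. -/
theorem result (F V : Type) [Field F] [Fintype F] [AddCommGroup V] [Module F V] [Fintype V]
    (S : Finset V) (hS : ∀ s ∈ S, -s ∈ S) (h0 : (0 : V) ∉ S) (hne : S.Nonempty)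
    (hinv : ∀ (c : F) (s : V), c ≠ 0 → s ∈ S → c • s ∈ S) :
    (∀ lam : ℝ, 0 ≤ lam → ∃ W : Submodule F V, ∀ A : Finset V, A.Nonempty →
      expansion (cay S hS h0) S.card (carrier W) - lam * codim W ≤
        expansion (cay S hS h0) S.card A
          - lam * Real.logb (Fintype.card F) (Fintype.card V / A.card)) ∧
    (∃ W : Submodule F V, W ≠ ⊤ ∧ ∀ A : Finset V, A.Nonempty → A ≠ univ →
      expansion (cay S hS h0) S.card (carrier W) *
          Real.logb (Fintype.card F) (Fintype.card V / A.card) ≤
        expansion (cay S hS h0) S.card A * codim W) ∧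
    (∀ eta del : ℝ, 0 < del → del < 1 → SseYes (cay S hS h0) S.card eta del →
      ∃ W : Submodule F V, W ≠ ⊤ ∧
        expansion (cay S hS h0) S.card (carrier W) ≤
          eta * codim W / Real.logb (Fintype.card F) (1 / del)) ∧
    (∀ W : Submodule F V, Real.logb (Fintype.card F) (Fintype.card V / (carrier W).card) =
      codim W) := by
  have hq := H562R2.CayleyIso.one_lt_q (F := F)
  have hq0 : (0 : ℝ) < Fintype.card F := by linarith
  have hSc : (0 : ℝ) < S.card := by exact_mod_cast hne.card_pos
  set G := cay S hS h0 with hG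
  let μ : V → ℝ := fun s => if s ∈ S then (1 : ℝ) / S.card else 0
  have hμ : ∀ s, 0 ≤ μ s := by
    intro s; simp only [μ]; split_ifs <;> positivity
  have hmem : ∀ (c : F) (s : V), c ≠ 0 → (c • s ∈ S ↔ s ∈ S) := by
    intro c s hc
    constructor
    · intro h
      have := hinv c⁻¹ _ (inv_ne_zero hc) h
      rwa [smul_smul, inv_mul_cancel₀ hc, one_smul] at this
    · exact hinv c s hc
  have hμinv : ∀ (c : F) (s : V), c ≠ 0 → μ (c • s) = μ s := by
    intro c s hc
    simp only [μ, hmem c s hc]
  have hexp : ∀ A : Finset V, expansion G S.card A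
      = (∑ s, μ s * (H562R2.CayleyIso.outCount A s : ℝ)) / A.card := by
    intro A
    unfold expansion
    rw [hG, cut_cay, ← div_div, Finset.sum_div]
    congr 1
    refine Finset.sum_congr rfl fun s _ => ?_
    simp only [μ]
    by_cases h : s ∈ S <;> simp [h]
    ring
  have hcod : ∀ W : Submodule F V, (codim W : ℝ) = (finrank F V : ℝ) - finrank F W := by
    intro W
    unfold codim
    rw [Nat.cast_sub (Submodule.finrank_le W)]
  have hexpW : ∀ W : Submodule F V, expansion G S.card (carrier W)
      = ∑ s ∈ univ.filter (fun s => s ∉ W), μ s := by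
    intro W
    have hc : (0 : ℝ) < (carrier W).card := by exact_mod_cast (carrier_nonempty W).card_pos
    rw [hexp, div_eq_iff hc.ne', Finset.sum_filter, Finset.sum_mul]
    refine Finset.sum_congr rfl fun s _ => ?_
    rw [out_subspace]
    by_cases h : s ∈ W <;> simp [h]
  have hg : ∀ (lam : ℝ) (W : Submodule F V), H562R2.CayleyIso.g μ lam W =
      expansion G S.card (carrier W) - lam * codim W := by
    intro lam W
    unfold H562R2.CayleyIso.g
    rw [hexpW, hcod]
  have h1 : ∀ lam : ℝ, 0 ≤ lam → ∃ W : Submodule F V, ∀ A : Finset V, A.Nonempty →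
      expansion G S.card (carrier W) - lam * codim W ≤ expansion G S.card A
          - lam * Real.logb (Fintype.card F) (Fintype.card V / A.card) := by
    intro lam hlam
    obtain ⟨W, hW⟩ := H562R2.CayleyIso.main (F := F) μ hμ hμinv lam hlam
    refine ⟨W, fun A hA => ?_⟩
    have := hW A hA
    rw [hg] at this
    rw [hexp A]
    exact this
  have hexp0 : ∀ A : Finset V, 0 ≤ expansion G S.card A := by
    intro A
    unfold expansion
    positivity
  have hlog : ∀ A : Finset V, A.Nonempty → A ≠ univ →
      0 < Real.logb (Fintype.card F) (Fintype.card V / A.card) := by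
    intro A hA hA'
    have hA0 : (0 : ℝ) < A.card := by exact_mod_cast hA.card_pos
    refine Real.logb_pos hq ?_
    rw [lt_div_iff₀ hA0, one_mul]
    exact_mod_cast Finset.card_lt_univ_of_notMem
      (Classical.choose_spec (by
        by_contra hcon
        push Not at hcon
        exact hA' (Finset.eq_univ_iff_forall.2 hcon) : ∃ x, x ∉ A))
  have hcpos : ∀ W : Submodule F V, W ≠ ⊤ → (0 : ℝ) < codim W := by
    intro W hW
    have : finrank F W < finrank F V := Submodule.finrank_lt hW
    rw [hcod]
    have : (finrank F W : ℝ) < finrank F V := by exact_mod_cast this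
    linarith
  -- the least ratio
  have hbot : (⊥ : Submodule F V) ≠ ⊤ := by
    obtain ⟨s, hs⟩ := hne
    intro h
    have : s ∈ (⊥ : Submodule F V) := by rw [h]; exact Submodule.mem_top
    rw [Submodule.mem_bot] at this
    exact h0 (this ▸ hs)
  have h2 : ∃ W : Submodule F V, W ≠ ⊤ ∧ ∀ A : Finset V, A.Nonempty → A ≠ univ →
      expansion G S.card (carrier W) * Real.logb (Fintype.card F) (Fintype.card V / A.card) ≤
        expansion G S.card A * codim W := by
    haveI : Nonempty {W : Submodule F V // W ≠ ⊤} := ⟨⟨⊥, hbot⟩⟩
    obtain ⟨⟨W, hW⟩, hmin⟩ := Finite.exists_min (fun W : {W : Submodule F V // W ≠ ⊤} =>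
      expansion G S.card (carrier W.1) / codim W.1)
    refine ⟨W, hW, fun A hA hA' => ?_⟩
    set lam : ℝ := expansion G S.card (carrier W) / codim W with hlam
    have hlam0 : 0 ≤ lam := div_nonneg (hexp0 _) (hcpos W hW).le
    obtain ⟨W', hW'⟩ := h1 lam hlam0
    have h3 : 0 ≤ expansion G S.card (carrier W') - lam * codim W' := by
      by_cases ht : W' = ⊤
      · have : (codim W' : ℝ) = 0 := by
          rw [hcod, ht, finrank_top]; ring
        rw [this, mul_zero, sub_zero]
        exact hexp0 _
      · have h4 := hmin ⟨W', ht⟩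
        simp only at h4
        rw [le_div_iff₀ (hcpos W' ht)] at h4
        linarith
    have h5 := h3.trans (hW' A hA)
    have h6 : expansion G S.card (carrier W) = lam * codim W := by
      rw [hlam, div_mul_cancel₀ _ (hcpos W hW).ne']
    rw [h6]
    nlinarith [hcpos W hW]
  refine ⟨h1, h2, ?_, ?_⟩
  · intro eta del hd0 hd1 hyes
    obtain ⟨A, hA, hcard, hle⟩ := hyes
    obtain ⟨W, hW, hmin⟩ := h2
    have hV : (0 : ℝ) < Fintype.card V := by exact_mod_cast Fintype.card_pos
    have hA' : A ≠ univ := by
      rintro rfl
      rw [Finset.card_univ] at hcard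
      nlinarith
    have hr : (Fintype.card V : ℝ) / A.card = 1 / del := by
      rw [hcard]; field_simp
    have hl := hlog A hA hA'
    have h3 := hmin A hA hA'
    rw [hr] at h3 hl
    refine ⟨W, hW, ?_⟩
    rw [le_div_iff₀ hl]
    exact h3.trans (mul_le_mul_of_nonneg_right hle (hcpos W hW).le)
  · intro W
    have hc : (carrier W).card = Fintype.card F ^ finrank F W := by
      rw [← Module.card_eq_pow_finrank (K := F) (V := W)]
      unfold carrier
      rw [Fintype.card_subtype]
    rw [hc, Module.card_eq_pow_finrank (K := F) (V := V), hcod]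
    push_cast
    rw [Real.logb_div (by positivity) (by positivity), Real.logb_pow, Real.logb_pow,
      Real.logb_self_eq_one hq]
    ring

end

end Pool.Agent.Results.MP_8d8c46_lc.SubspacesOptimal
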